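import Mathlib
import Pool.Agent.X132.FRC

set_option linter.unusedSectionVars false

/-!
# Proper fractional revival in trees occurs only between cospectral vertices
-/

namespace Pool.Agent.Results.MP_33c96f_co.TreeRevival

open Matrix Complex Pool.Agent.X132.FR

variable {V : Type} [Fintype V] [DecidableEq V]

/-- Proper fractional revival between `a` and `b`. -/
def ProperRevival (T : SimpleGraph V) [DecidableRel T.Adj] (a b : V) : Prop :=
  ∃ (τ : ℝ) (α β : ℂ), 0 < τ ∧ α ≠ 0 ∧ β ≠ 0 ∧
    walk (T.adjMatrix ℂ) τ *ᵥ Pi.single a 1 = α • Pi.single a 1 + β • Pi.single b 1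

/-- The vertex-deleted subgraphs have the same characteristic polynomial. -/
def Cospectral (T : SimpleGraph V) [DecidableRel T.Adj] (a b : V) : Prop :=
  ((T.induce ({a}ᶜ : Set V)).adjMatrix ℤ).charpoly =
    ((T.induce ({b}ᶜ : Set V)).adjMatrix ℤ).charpoly

theorem adj_map (T : SimpleGraph V) [DecidableRel T.Adj] :
    T.adjMatrix ℂ = (T.adjMatrix ℤ).map (Int.cast : ℤ → ℂ) := by
  ext u v
  simp [SimpleGraph.adjMatrix_apply]

theorem adj_hermitian (T : SimpleGraph V) [DecidableRel T.Adj] : (T.adjMatrix ℂ).IsHermitian := by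
  ext u v
  simp [SimpleGraph.adjMatrix_apply, Matrix.conjTranspose_apply, T.adj_comm]

theorem cospectral_of (T : SimpleGraph V) [DecidableRel T.Adj] {a b : V}
    (h : ∀ k : ℕ, ((T.adjMatrix ℂ) ^ k) a a = ((T.adjMatrix ℂ) ^ k) b b) : Cospectral T a b := by
  have h1 := charpoly_eq_of_walks h
  have h2 : ∀ c : V, (T.adjMatrix ℂ).submatrix (fun x : ({c}ᶜ : Set V) => x.1) (fun x => x.1) =
      ((T.induce ({c}ᶜ : Set V)).adjMatrix ℤ).map (Int.castRingHom ℂ) := by
    intro c
    ext u v
    simp [SimpleGraph.adjMatrix_apply]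
  rw [h2, h2, Matrix.charpoly_map, Matrix.charpoly_map] at h1
  exact Polynomial.map_injective _ (Int.cast_injective) h1

theorem tree_dist_entry {T : SimpleGraph V} [DecidableRel T.Adj] (hT : T.IsTree) (a b : V) :
    ((T.adjMatrix ℂ) ^ (T.dist a b)) a b = 1 := by
  rw [SimpleGraph.adjMatrix_pow_apply_eq_card_walk]
  obtain ⟨p, hp⟩ := hT.connected.exists_walk_length_eq_dist a b
  have huniq : ∀ q : T.Walk a b, q.length = T.dist a b → q = p := by
    intro q hq
    have h1 := p.isPath_of_length_eq_dist hp
    have h2 := q.isPath_of_length_eq_dist hq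
    exact congrArg Subtype.val ((hT.isAcyclic.subsingleton_path a b).elim ⟨q, h2⟩ ⟨p, h1⟩)
  have : Fintype.card {q : T.Walk a b | q.length = T.dist a b} = 1 := by
    rw [Fintype.card_eq_one_iff]
    exact ⟨⟨p, hp⟩, fun q => Subtype.ext (huniq q.1 q.2)⟩
  rw [this]
  simp

/-- **Proper fractional revival in trees occurs only between cospectral vertices**: if proper
fractional revival occurs between two vertices of a tree, then the two vertices are at odd
distance and the two vertex-deleted subgraphs have the same characteristic polynomial. -/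
theorem result : ∀ (V : Type) [Fintype V] [DecidableEq V] (T : SimpleGraph V)
    [DecidableRel T.Adj], T.IsTree → ∀ a b : V, a ≠ b → ProperRevival T a b →
    Odd (T.dist a b) ∧ Cospectral T a b := by
  intro V _ _ T _ hT a b hab ⟨t, α, β, ht, hα, hβ, hU⟩
  have hA := adj_hermitian T
  have hAT : (T.adjMatrix ℂ)ᵀ = T.adjMatrix ℂ := T.transpose_adjMatrix
  -- the column of the transition matrix
  have hcol : ∀ v, walk (T.adjMatrix ℂ) t v a = if v = a then α else if v = b then β else 0 := by
    intro v
    have h1 := congrFun hU v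
    rw [Matrix.mulVec_single_one] at h1
    simp only [Matrix.col_apply, Pi.add_apply, Pi.smul_apply, smul_eq_mul] at h1
    rw [h1]
    by_cases hva : v = a
    · subst hva
      rw [if_pos rfl, Pi.single_eq_same, Pi.single_eq_of_ne hab]; ring
    · rw [if_neg hva, Pi.single_eq_of_ne hva]
      by_cases hvb : v = b
      · subst hvb
        rw [if_pos rfl, Pi.single_eq_same]; ring
      · rw [if_neg hvb, Pi.single_eq_of_ne hvb]; ring
  have hrel := relation hA hAT hab hβ hcol
  -- a two-colouring
  obtain ⟨c⟩ : Nonempty (T.Coloring Bool) :=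
    ⟨SimpleGraph.recolorOfEquiv T finTwoEquiv hT.coloringTwo⟩
  have hd1 := tree_dist_entry hT a b
  obtain ⟨p, hp⟩ := hT.connected.exists_walk_length_eq_dist a b
  have hodd : Odd (T.dist a b) := by
    by_contra hnot
    rw [Nat.not_odd_iff_even] at hnot
    -- same colour
    have hc : (c a : Prop) ↔ c b := by
      rw [← c.even_length_iff_congr p, hp]; exact hnot
    have hc' : c b = c a := by
      rcases h1 : c a with _ | _ <;> rcases h2 : c b with _ | _ <;> simp [h1, h2] at hc ⊢
    set σ : V → ℂ := fun v => if c v = true then 1 else -1 with hσdef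
    have hσ : ∀ v, σ v * σ v = 1 := by
      intro v
      simp only [hσdef]
      split_ifs <;> norm_num
    have hbip : ∀ u v, σ u * T.adjMatrix ℂ u v * σ v = -T.adjMatrix ℂ u v := by
      intro u v
      rw [SimpleGraph.adjMatrix_apply]
      split_ifs with h
      · have h1 := c.valid h
        simp only [hσdef]
        rcases h2 : c u with _ | _ <;> rcases h3 : c v with _ | _ <;> simp [h2, h3] at h1 ⊢
      · ring
    have hσab : σ b = σ a := by simp only [hσdef, hc']
    have hper := bipartite_col σ hσ hbip hσab hcol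
    obtain ⟨Q, l, hd⟩ := exists_diag hA
    obtain ⟨x, hx⟩ := entries_rational (adj_map T) hd ht hper a
    obtain ⟨y, hy⟩ := entries_rational (adj_map T) hd ht hper b
    have hxα : (x : ℂ) = α := by rw [← hx, hcol a, if_pos rfl]
    have hyβ : (y : ℂ) = β := by
      rw [← hy, hcol b, if_neg (fun h => hab h.symm), if_pos rfl]
    -- the square of the transition matrix fixes `e_a`
    have hsq : ∀ v, ∑ j, walk (T.adjMatrix ℂ) t v j * walk (T.adjMatrix ℂ) t j a =
        if v = a then 1 else 0 := by
      intro v
      have h1 := congrFun (congrFun (walk_neg_mul hA t) v) a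
      rw [Matrix.mul_apply, Matrix.one_apply] at h1
      rw [← h1]
      exact Finset.sum_congr rfl fun j _ => by rw [hper j]
    have hsymm : ∀ u v, walk (T.adjMatrix ℂ) t u v = walk (T.adjMatrix ℂ) t v u := by
      intro u v
      have := congrFun (congrFun (walk_transpose hAT t) u) v
      rw [Matrix.transpose_apply] at this
      exact this.symm
    have hsum : ∀ v, ∑ j, walk (T.adjMatrix ℂ) t v j * walk (T.adjMatrix ℂ) t j a =
        walk (T.adjMatrix ℂ) t v a * α + walk (T.adjMatrix ℂ) t v b * β := by
      intro v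
      rw [Finset.sum_eq_add a b hab]
      · rw [hcol a, hcol b, if_pos rfl, if_neg (fun h => hab h.symm), if_pos rfl]
      · intro j _ hj
        rw [hcol j, if_neg hj.1, if_neg hj.2, mul_zero]
      · intro h; simp at h
      · intro h; simp at h
    have e1 : α * α + β * β = 1 := by
      have h1 := hsum a
      rw [hsq, if_pos rfl, hcol a, if_pos rfl, hsymm a b, hcol b,
        if_neg (fun h => hab h.symm), if_pos rfl] at h1
      exact h1.symm
    have e2 : walk (T.adjMatrix ℂ) t b b = -α := by
      have h1 := hsum b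
      rw [hsq, if_neg (fun h => hab h.symm), hcol b, if_neg (fun h => hab h.symm),
        if_pos rfl] at h1
      have h2 : β * (walk (T.adjMatrix ℂ) t b b + α) = 0 := by linear_combination -h1
      rcases mul_eq_zero.1 h2 with h3 | h3
      · exact absurd h3 hβ
      · linear_combination h3
    have h3 := hrel (T.dist a b)
    rw [e2, hd1] at h3
    have hint : ∀ u, ∃ n : ℤ, ((T.adjMatrix ℂ) ^ (T.dist a b)) u u = n := by
      intro u
      rw [SimpleGraph.adjMatrix_pow_apply_eq_card_walk]
      exact ⟨_, (Int.cast_natCast _).symm⟩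
    obtain ⟨n1, hn1⟩ := hint a
    obtain ⟨n2, hn2⟩ := hint b
    rw [hn1, hn2, ← hxα, ← hyβ] at h3
    rw [← hxα, ← hyβ] at e1
    have e1' : (x : ℝ) ^ 2 + (y : ℝ) ^ 2 = 1 := by
      have : x * x + y * y = 1 := by exact_mod_cast e1
      have h4 : x ^ 2 + y ^ 2 = 1 := by linarith
      exact_mod_cast h4
    have h3' : ((n1 - n2 : ℤ) : ℝ) * (y : ℝ) = 2 * (x : ℝ) := by
      have h4 : ((n1 - n2 : ℤ) : ℂ) * (y : ℂ) = 2 * (x : ℂ) := by
        push_cast
        linear_combination h3
      exact_mod_cast h4
    have hy0 : (y : ℝ) ≠ 0 := by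
      intro h0
      apply hβ
      rw [← hyβ]
      exact_mod_cast h0
    have hn := int_eq_zero ⟨y, rfl⟩ hy0 e1' h3'
    rw [hn] at h3'
    apply hα
    rw [← hxα]
    have : (x : ℝ) = 0 := by push_cast at h3'; linarith
    exact_mod_cast this
  refine ⟨hodd, cospectral_of T ?_⟩
  -- closed walks of odd length do not exist
  have hclosed : ∀ u, ((T.adjMatrix ℂ) ^ (T.dist a b)) u u = 0 := by
    intro u
    rw [SimpleGraph.adjMatrix_pow_apply_eq_card_walk]
    have : IsEmpty {q : T.Walk u u | q.length = T.dist a b} := by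
      refine ⟨fun q => ?_⟩
      have h1 := (c.even_length_iff_congr q.1).2 Iff.rfl
      rw [q.2] at h1
      exact (Nat.not_even_iff_odd.2 hodd) h1
    rw [Fintype.card_eq_zero]
    simp
  have hc0 : α - walk (T.adjMatrix ℂ) t b b = 0 := by
    have h3 := hrel (T.dist a b)
    rw [hclosed, hclosed, hd1] at h3
    linear_combination -h3
  intro k
  have h3 := hrel k
  rw [hc0, zero_mul] at h3
  rcases mul_eq_zero.1 h3 with h4 | h4
  · exact absurd h4 hβ
  · exact sub_eq_zero.1 h4

end Pool.Agent.Results.MP_33c96f_co.TreeRevival
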